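import Pool.Agent.Helper45.CF.GoalsC

/-!
Packet CF2-FIB (MP_d97caa_an): the fibres of the pull-back algebra.
-/

open scoped ComplexOrder ZeroAtInfty Topology ComplexConjugate NNReal
open TopologicalSpace Filter

namespace Pool.Agent.Helper90.CF2.FIB

open Pool.Agent.Helper45.CF Pool.Agent.Helper34.CAR Pool.Agent.Helper39.CR
  Pool.Agent.Helper39.Uct Pool.Agent.Helper39.CarDefs

noncomputable section

/-- A homomorphism on the image of a surjective homomorphism with a larger kernel. -/
theorem descend {H L M : Type} [CStarAlgebra H] [CStarAlgebra L] [CStarAlgebra M]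
    (p : H →⋆ₐ[ℂ] L) (g : H →⋆ₐ[ℂ] M) (hp : Function.Surjective p)
    (hn : ∀ b, ‖g b‖ = ‖p b‖) : ∃ j' : L →⋆ₐ[ℂ] M, Function.Injective j' ∧ ∀ b, j' (p b) = g b := by
  have key : ∀ b b', p b = p b' → g b = g b' := by
    intro b b' h
    rw [← sub_eq_zero, ← norm_eq_zero, ← map_sub, hn, map_sub, h, sub_self, norm_zero]
  have hs : ∀ l, p (Function.surjInv hp l) = l := Function.surjInv_eq hp
  have hg : ∀ b, g (Function.surjInv hp (p b)) = g b := fun b => key _ _ (hs (p b))
  refine ⟨{ toFun := fun l => g (Function.surjInv hp l)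
            map_one' := ?_
            map_mul' := ?_
            map_zero' := ?_
            map_add' := ?_
            commutes' := ?_
            map_star' := ?_ }, ?_, hg⟩
  · rw [← map_one p, hg, map_one]
  · intro a b
    rw [← map_mul]
    exact key _ _ (by rw [hs, map_mul, hs, hs])
  · rw [← map_zero p, hg, map_zero]
  · intro a b
    show g _ = g _ + g _
    rw [← map_add]
    exact key _ _ (by rw [hs, map_add, hs, hs])
  · intro c
    show g _ = _
    rw [← AlgHomClass.commutes g c]
    exact key _ _ (by rw [hs, AlgHomClass.commutes])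
  · intro a
    show g _ = star (g _)
    rw [← map_star]
    exact key _ _ (by rw [hs, map_star, hs])
  · intro a b h
    have h1 : g (Function.surjInv hp a) = g (Function.surjInv hp b) := h
    have h2 : ‖p (Function.surjInv hp a - Function.surjInv hp b)‖ = 0 := by
      rw [← hn, map_sub, h1, sub_self, norm_zero]
    rw [norm_eq_zero, map_sub, hs, hs, sub_eq_zero] at h2
    exact h2

/-- Evaluation at a point. -/
def evA {X M : Type} [TopologicalSpace X] [CompactSpace X] [CStarAlgebra M] (x : X) :
    C(X, M) →⋆ₐ[ℂ] M where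
  toFun f := f x
  map_one' := rfl
  map_mul' _ _ := rfl
  map_zero' := rfl
  map_add' _ _ := rfl
  commutes' _ := rfl
  map_star' _ := rfl

theorem t (hT : S_TIE) : S_FIB := by
  intro X Q M H A L _ _ _ _ _ _ _ _ _ e j i r π he hM hL hπ hn hr hA x
  by_cases hx : x ∈ Set.range e
  · obtain ⟨x', rfl⟩ := hx
    obtain ⟨j', hj', hjp⟩ := descend (π x') ((evA x').comp j) (hπ x') (fun b => hn b x')
    refine ⟨L, inferInstance, j', hL, hj', ?_⟩
    apply Set.eq_of_subset_of_subset
    · rintro _ ⟨l, rfl⟩
      obtain ⟨b, rfl⟩ := hπ x' l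
      obtain ⟨f, hf⟩ := hT X Q M e he (j b)
      have hf' : ∀ z, j b z = f (e z) := fun z => by rw [← hf]; rfl
      obtain ⟨a, ha⟩ := hA f ⟨b, hf'⟩
      refine ⟨a, ?_⟩
      show i a (e x') = j' (π x' b)
      rw [ha, hjp, ← hf' x']
      rfl
    · rintro _ ⟨a, rfl⟩
      refine ⟨π x' (r a), ?_⟩
      show j' (π x' (r a)) = i a (e x')
      rw [hjp, ← hr]
      rfl
  · refine ⟨M, inferInstance, StarAlgHom.id ℂ M, hM, fun a b h => h, ?_⟩
    apply Set.eq_of_subset_of_subset
    · rintro m -
      have hcl : IsClosed (Set.range e) := (isCompact_range e.continuous).isClosed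
      obtain ⟨φ, h0, h1, -⟩ := exists_continuous_zero_one_of_isClosed hcl
        (isClosed_singleton (x := x)) (Set.disjoint_singleton_right.mpr hx)
      let f : C(Q, M) := ⟨fun q => ((φ q : ℝ) : ℂ) • m, by fun_prop⟩
      obtain ⟨a, ha⟩ := hA f ⟨0, fun z => by
        have hz : φ (e z) = 0 := h0 ⟨z, rfl⟩
        show j 0 z = ((φ (e z) : ℝ) : ℂ) • m
        rw [hz, map_zero, Complex.ofReal_zero, zero_smul]
        rfl⟩
      refine ⟨a, ?_⟩
      have hx1 : φ x = 1 := h1 rfl
      show i a x = m
      rw [ha]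
      show ((φ x : ℝ) : ℂ) • m = m
      rw [hx1, Complex.ofReal_one, one_smul]
    · rintro _ ⟨a, rfl⟩
      exact ⟨i a x, rfl⟩

end

end Pool.Agent.Helper90.CF2.FIB
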